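import Mathlib

/-!
# MP_b4086f_gt: spaces `C_p(X)` that are not weakly Whyburn

For every normal space `X` that contains a closed copy of the Baire space `ω^ω` the space `C_p(X)`
is not weakly Whyburn.
-/

set_option autoImplicit false

namespace Pool.Agent.Results.MP_b4086f_gt.BaireSpace

open Set Filter Topology

open Classical in
noncomputable def psi (s : ℕ → Prop) (t : ℝ) : ℝ :=
  if s ⌊t⌋.toNat then |Real.sin (Real.pi * t)| else 0

theorem psi_cont (s : ℕ → Prop) : Continuous (psi s) := by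
  refine continuous_iff_continuousAt.mpr fun r => ?_
  have hc : Continuous fun r : ℝ => |Real.sin (Real.pi * r)| := by fun_prop
  by_cases h : Int.fract r = 0
  · have h1 : |Real.sin (Real.pi * r)| = 0 := by
      rw [← Int.floor_add_fract r, h, add_zero, mul_comm, Real.sin_int_mul_pi, abs_zero]
    have h2 : psi s r = 0 := by simp [psi, h1]
    unfold ContinuousAt
    rw [h2]
    refine squeeze_zero (fun r => ?_) (fun r => ?_) (h1 ▸ hc.tendsto r)
    · unfold psi
      split_ifs <;> simp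
    · unfold psi
      split_ifs <;> simp
  · have h1 : ∀ᶠ t in 𝓝 r, ⌊t⌋ = ⌊r⌋ := mem_of_superset (Ioo_mem_nhds (lt_of_le_of_ne (Int.floor_le r)
      fun e => h (sub_eq_zero.mpr e.symm)) (Int.lt_floor_add_one r))
      fun t ht => Int.floor_eq_iff.mpr ⟨ht.1.le, ht.2⟩
    classical
    refine ContinuousAt.congr (f := fun t => if s ⌊r⌋.toNat then |Real.sin (Real.pi * t)| else 0) ?_
      (h1.mono fun t ht => by simp only [psi, ht])
    split_ifs <;> fun_prop

theorem psi_half {s : ℕ → Prop} {n : ℕ} (h : s n) : psi s (n + 1 / 2) = 1 := by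
  have h1 : ⌊(n : ℝ) + 1 / 2⌋ = n := Int.floor_eq_iff.mpr ⟨by simp, by push_cast; linarith⟩
  have h2 : Real.pi * (n + 1 / 2) = Real.pi / 2 + n * Real.pi := by ring
  unfold psi
  rw [h1, Int.toNat_natCast, if_pos h, h2, Real.sin_add_nat_mul_pi]
  simp

noncomputable def H (S : ℕ → ℕ → Set ℕ) (q : ℕ) (y : ℕ → ℝ) : ℝ :=
  y (2 * q + 1) * ∏ i ∈ Finset.range q, psi (fun n => q ∈ S i n) (y (2 * i + 2))

theorem H_cont (S : ℕ → ℕ → Set ℕ) (q : ℕ) : Continuous (H S q) :=
  (continuous_apply _).mul (continuous_finsetProd _ fun _ _ => (psi_cont _).comp (continuous_apply _))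

theorem H_small (S : ℕ → ℕ → Set ℕ) (y : ℕ → ℝ) (i q : ℕ) (h : H S q y ≠ 0) (hi : i < q) :
    q ∈ S i ⌊y (2 * i + 2)⌋.toNat := by
  by_contra h1
  exact h (mul_eq_zero_of_right _ (Finset.prod_eq_zero (Finset.mem_range.mpr hi) (if_neg h1)))

open Classical in
noncomputable def Y (σ : ℕ → ℕ) (N : Set ℕ) (k : ℕ) : ℝ :=
  if k % 2 = 1 then (if k / 2 ∈ N then 1 else 0) else if k = 0 then 0 else σ (k / 2 - 1) + 1 / 2

open Classical in
theorem H_Y {S : ℕ → ℕ → Set ℕ} {σ : ℕ → ℕ} (N : Set ℕ) {q : ℕ} (h : ∀ i, q ∈ S i (σ i)) :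
    H S q (Y σ N) = if q ∈ N then 1 else 0 := by
  have h1 : ∀ i, Y σ N (2 * i + 2) = σ i + 1 / 2 := fun i => by
    unfold Y
    rw [if_neg (by omega), if_neg (by omega), show (2 * i + 2) / 2 - 1 = i by omega]
  unfold H
  rw [Finset.prod_eq_one fun i _ => by rw [h1]; exact psi_half (h i), mul_one]
  unfold Y
  rw [if_pos (by omega), show (2 * q + 1) / 2 = q by omega]

theorem Y_lim (σ : ℕ → ℕ) : Tendsto (fun n => Y σ (Iio n)) atTop (𝓝 (Y σ univ)) := by
  refine tendsto_pi_nhds.mpr fun k => tendsto_const_nhds.congr' ?_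
  filter_upwards [eventually_gt_atTop (k / 2)] with n hn
  simp [Y, hn]

def Nwd (e : ℕ → ℚ) (N : Set ℕ) : Prop :=
  ∀ a b : ℚ, a < b → ∃ c d, a ≤ c ∧ c < d ∧ d ≤ b ∧ (N ∩ e ⁻¹' Ioo c d).Finite

def F (e : ℕ → ℚ) : Filter ℕ where
  sets := {N | Nwd e Nᶜ}
  univ_sets := fun a b h => ⟨a, b, le_rfl, h, le_rfl, by simp⟩
  sets_of_superset := fun h1 h2 a b h => by
    obtain ⟨c, d, h3, h4, h5, h6⟩ := h1 a b h
    exact ⟨c, d, h3, h4, h5, h6.subset (inter_subset_inter_left _ (compl_subset_compl.mpr h2))⟩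
  inter_sets := fun h1 h2 a b h => by
    obtain ⟨c, d, h3, h4, h5, h6⟩ := h1 a b h
    obtain ⟨c', d', h7, h8, h9, h10⟩ := h2 c d h4
    refine ⟨c', d', h3.trans h7, h8, h9.trans h5, (h6.union h10).subset fun q hq => ?_⟩
    rcases not_and_or.mp hq.1 with h | h
    exacts [Or.inl ⟨h, Ioo_subset_Ioo h7 h9 hq.2⟩, Or.inr ⟨h, hq.2⟩]

theorem code (e : ℕ → ℚ) : ∃ S : ℕ → ℕ → Set ℕ, (∀ y, Nwd e {q | H S q y ≠ 0}) ∧
    ∀ N, Nwd e N → ∃ σ : ℕ → ℕ, ∀ q ∈ N, ∀ i, q ∈ S i (σ i) := by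
  obtain ⟨E, hE⟩ := exists_surjective_nat (ℚ × ℚ)
  obtain ⟨G, hG⟩ := exists_surjective_nat (ℚ × ℚ × ℕ)
  let S : ℕ → ℕ → Set ℕ := fun i n => {q | (E i).1 < (E i).2 → (E i).1 ≤ (G n).1 ∧ (G n).1 < (G n).2.1 ∧
    (G n).2.1 ≤ (E i).2 ∧ (e q ∈ Ioo (G n).1 (G n).2.1 → q ≤ (G n).2.2)}
  refine ⟨S, fun y a b h => ?_, fun N hN => ?_⟩
  · obtain ⟨i, hi⟩ := hE (a, b)
    have h1 := fun q h2 h3 => H_small S y i q h2 h3 (by rw [hi]; exact h)
    rw [hi] at h1
    by_cases h2 : ∃ q, H S q y ≠ 0 ∧ i < q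
    · obtain ⟨q, h3, h4⟩ := h2
      obtain ⟨h5, h6, h7, -⟩ := h1 q h3 h4
      refine ⟨_, _, h5, h6, h7, (finite_Iic (max i (G ⌊y (2 * i + 2)⌋.toNat).2.2)).subset fun p hp => ?_⟩
      rcases le_or_gt p i with h8 | h8
      exacts [mem_Iic.mpr (le_max_of_le_left h8), mem_Iic.mpr (le_max_of_le_right ((h1 p hp.1 h8).2.2.2 hp.2))]
    · exact ⟨a, b, le_rfl, h, le_rfl, (finite_Iic i).subset fun p hp =>
        mem_Iic.mpr (not_lt.mp fun h3 => h2 ⟨p, hp.1, h3⟩)⟩
  · have : ∀ i, ∃ n, ∀ q ∈ N, q ∈ S i n := fun i => by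
      by_cases h : (E i).1 < (E i).2
      · obtain ⟨c, d, h1, h2, h3, h4⟩ := hN _ _ h
        obtain ⟨m, hm⟩ := h4.bddAbove
        obtain ⟨n, hn⟩ := hG (c, d, m)
        refine ⟨n, fun q hq _ => ?_⟩
        rw [hn]
        exact ⟨h1, h2, h3, fun h5 => hm ⟨hq, h5⟩⟩
      · exact ⟨0, fun q _ h1 => absurd h1 h⟩
    choose σ hσ using this
    exact ⟨σ, fun q hq i => hσ i q hq⟩

/-- `C_p(X)`: the continuous real functions on `X` with the topology of pointwise convergence. -/
abbrev Cp (X : Type*) [TopologicalSpace X] : Type _ := {f : X → ℝ // Continuous f}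

/-- `Z` is weakly Whyburn: for every non-closed `A ⊆ Z` there are a point `x` in the closure of `A`
but not in `A` and a set `B ⊆ A` whose closure is `B ∪ {x}`. -/
def WeaklyWhyburn (Z : Type*) [TopologicalSpace Z] : Prop :=
  ∀ A : Set Z, ¬ IsClosed A → ∃ B : Set Z, B ⊆ A ∧
    ∃ x : Z, x ∈ closure A ∧ x ∉ A ∧ closure B = insert x B

section
variable {X : Type*} [TopologicalSpace X]

/-- the map `X → ℝ^ω` -/
noncomputable def Phi (E : X → ℕ → ℝ) (p : X) (k : ℕ) : ℝ :=
  if k = 0 ∨ k % 2 = 1 then min (E p k) 1 else E p k + 1 / 2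

theorem Phi_cont {E : X → ℕ → ℝ} (hE : Continuous E) : Continuous (Phi E) := by
  refine continuous_pi fun k => ?_
  have h : Continuous fun p => E p k := (continuous_apply k).comp hE
  unfold Phi
  split_ifs
  · exact h.min continuous_const
  · exact h.add continuous_const

open Classical in
/-- the point of the Baire space coding `σ` and `N` -/
noncomputable def pt (σ : ℕ → ℕ) (N : Set ℕ) (k : ℕ) : ℕ :=
  if k % 2 = 1 then (if k / 2 ∈ N then 1 else 0) else if k = 0 then 0 else σ (k / 2 - 1)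

omit [TopologicalSpace X] in
theorem Phi_pt {E : X → ℕ → ℝ} {s : (ℕ → ℕ) → X} (hs : ∀ a k, E (s a) k = a k) (σ : ℕ → ℕ)
    (N : Set ℕ) : Phi E (s (pt σ N)) = Y σ N := by
  funext k
  unfold Phi Y
  rw [hs]
  unfold pt
  by_cases h1 : k % 2 = 1
  · rw [if_pos (Or.inr h1), if_pos h1, if_pos h1]
    split_ifs <;> simp
  · by_cases h0 : k = 0
    · subst h0; simp
    · rw [if_neg (by tauto), if_neg h1, if_neg h1, if_neg h0, if_neg h0]

theorem pt_lim (σ : ℕ → ℕ) : Tendsto (fun n => pt σ (Iio n)) atTop (𝓝 (pt σ univ)) := by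
  refine tendsto_pi_nhds.mpr fun k => tendsto_const_nhds.congr' ?_
  filter_upwards [eventually_gt_atTop (k / 2)] with n hn
  simp [pt, hn]

noncomputable def g (E : X → ℕ → ℝ) (hE : Continuous E) (e : ℕ → ℚ) (S : ℕ → ℕ → Set ℕ) (q : ℕ) :
    Cp X :=
  ⟨fun p => H S q (Phi E p) + e q * Phi E p 0, ((H_cont S q).comp (Phi_cont hE)).add
    (continuous_const.mul ((continuous_apply 0).comp (Phi_cont hE)))⟩

noncomputable def k (E : X → ℕ → ℝ) (hE : Continuous E) (r : ℝ) : Cp X :=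
  ⟨fun p => r * Phi E p 0, continuous_const.mul ((continuous_apply 0).comp (Phi_cont hE))⟩

theorem key {E : X → ℕ → ℝ} (hE : Continuous E) {e : ℕ → ℚ} {S : ℕ → ℕ → Set ℕ}
    (hS : ∀ y, Nwd e {q | H S q y ≠ 0}) {B : Set ℕ} {a b : ℚ}
    (h : a < b) (hB : ∀ c d, a ≤ c → c < d → d ≤ b → (B ∩ e ⁻¹' Ioo c d).Infinite) :
    ∃ r ∈ Icc (a : ℝ) b, k E hE r ∈ closure (g E hE e S '' B) := by
  have h1 : (F e ⊓ 𝓟 (B ∩ e ⁻¹' Icc a b)).NeBot := by
    refine inf_principal_neBot_iff.mpr fun N hN => by_contra fun h2 => ?_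
    obtain ⟨c, d, h3, h4, h5, h6⟩ := hN a b h
    exact hB c d h3 h4 h5 (h6.subset fun q hq => ⟨fun h7 => h2 ⟨q, h7, hq.1,
      h3.trans hq.2.1.le, hq.2.2.le.trans h5⟩, hq.2⟩)
  obtain ⟨u, hu⟩ := exists_ultrafilter_le (F e ⊓ 𝓟 (B ∩ e ⁻¹' Icc a b))
  have h2 : B ∩ e ⁻¹' Icc a b ∈ u := le_principal_iff.mp (hu.trans inf_le_right)
  obtain ⟨r, hr, h3⟩ := (isCompact_Icc (a := (a : ℝ)) (b := b)).ultrafilter_le_nhds (u.map fun q => (e q : ℝ))
    (le_principal_iff.mpr (mem_map.mpr (mem_of_superset h2 fun q hq =>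
      ⟨Rat.cast_le.mpr hq.2.1, Rat.cast_le.mpr hq.2.2⟩)))
  refine ⟨r, hr, mem_closure_of_tendsto (b := u) (f := g E hE e S) (tendsto_subtype_rng.mpr
    (tendsto_pi_nhds.mpr fun y => ?_)) (mem_of_superset h2 fun q hq => mem_image_of_mem _ hq.1)⟩
  have h4 : {q | H S q (Phi E y) ≠ 0}ᶜ ∈ F e := by
    change Nwd e _
    rw [compl_compl]
    exact hS _
  refine (Tendsto.mul_const (Phi E y 0) (show Tendsto (fun q => (e q : ℝ)) u (𝓝 r) from h3)).congr' ?_
  filter_upwards [hu.trans inf_le_left h4] with q hq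
  change _ = H S q (Phi E y) + _
  rw [not_not.mp hq, zero_add]

/-- If the Baire space maps into `X` and the coordinates extend continuously over `X`, then
`C_p(X)` is not weakly Whyburn. -/
theorem main {E : X → ℕ → ℝ} (hE : Continuous E) {s : (ℕ → ℕ) → X} (hsc : Continuous s)
    (hs : ∀ a k, E (s a) k = a k) : ¬ WeaklyWhyburn (Cp X) := by
  intro hW
  classical
  obtain ⟨e, he⟩ := exists_surjective_nat ℚ
  obtain ⟨S, h1, h2⟩ := code e
  have hY : ∀ σ N, Y σ N 0 = 0 := fun σ N => by simp [Y]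
  have hg : ∀ σ N q, (∀ i, q ∈ S i (σ i)) →
      (g E hE e S q).1 (s (pt σ N)) = if q ∈ N then 1 else 0 :=
    fun σ N q hq => by
      change H S q (Phi E (s (pt σ N))) + _ * Phi E (s (pt σ N)) 0 = _
      rw [Phi_pt hs, hY, H_Y N hq, mul_zero, add_zero]
  have hk : ∀ r, k E hE r ∉ range (g E hE e S) := by
    rintro r ⟨q, hq⟩
    obtain ⟨σ, hσ⟩ := h2 {q} fun a b h => ⟨a, b, le_rfl, h, le_rfl, (finite_singleton q).inter_of_left _⟩
    have := hg σ univ q (hσ q rfl)
    rw [hq] at this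
    have h0 : (k E hE r).1 (s (pt σ univ)) = r * Phi E (s (pt σ univ)) 0 := rfl
    rw [h0, Phi_pt hs, hY] at this
    simp at this
  obtain ⟨B, h3, x, -, h4, h5⟩ := hW (range (g E hE e S)) fun h => by
    obtain ⟨r, -, hr⟩ := key hE h1 (B := univ) zero_lt_one fun c d _ h6 _ => by
      rw [univ_inter]
      exact (Ioo_infinite h6).preimage fun q _ => he q
    rw [image_univ, h.closure_eq] at hr
    exact hk r hr
  rw [← image_preimage_eq_of_subset h3] at h5
  generalize g E hE e S ⁻¹' B = N at h5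
  have hev : ∀ y, Continuous fun f : Cp X => f.1 y :=
    fun y => (continuous_apply y).comp continuous_subtype_val
  by_cases h6 : Nwd e N
  · obtain ⟨σ, hσ⟩ := h2 N h6
    have h7 : x ∈ closure (g E hE e S '' N) := h5 ▸ mem_insert _ _
    have h8 : x.1 (s (pt σ univ)) = 1 :=
      closure_minimal (t := {f : Cp X | f.1 (s (pt σ univ)) = 1})
      (by rintro _ ⟨q, hq, rfl⟩; simpa using hg σ univ q (hσ q hq))
      (isClosed_eq (hev _) continuous_const) h7
    have h9 : ∀ n, x.1 (s (pt σ (Iio n))) = 0 := fun n => by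
      have := closure_minimal
        (t := {f : Cp X | f.1 (s (pt σ (Iio n))) = 0} ∪ g E hE e S '' Iio n) (by
        rintro _ ⟨q, hq, rfl⟩
        by_cases h : q ∈ Iio n
        exacts [Or.inr (mem_image_of_mem _ h), Or.inl ((hg σ _ q (hσ q hq)).trans (if_neg h))])
        ((isClosed_eq (hev _) continuous_const).union ((finite_Iio n).image _).isClosed) h7
      exact this.resolve_right fun h => h4 (image_subset_range _ _ h)
    have := (x.2.tendsto _).comp ((hsc.tendsto _).comp (pt_lim σ))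
    simp only [Function.comp_def, h9, h8] at this
    exact zero_ne_one (tendsto_nhds_unique tendsto_const_nhds this)
  · unfold Nwd at h6
    push Not at h6
    obtain ⟨a, b, h6, h7⟩ := h6
    obtain ⟨r, h8, h9⟩ := key hE h1 (B := N) (a := a) (b := (2 * a + b) / 3) (by linarith)
      fun c d i1 i2 i3 => h7 c d i1 i2 (by linarith)
    obtain ⟨t, h10, h11⟩ := key hE h1 (B := N) (a := (a + 2 * b) / 3) (b := b) (by linarith)
      fun c d i1 i2 i3 => h7 c d (by linarith) i2 i3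
    rw [h5] at h9 h11
    have e1 := h9.resolve_right fun h => hk _ (image_subset_range _ _ h)
    have e2 := h11.resolve_right fun h => hk _ (image_subset_range _ _ h)
    have e3 : r * Phi E (s 1) 0 = t * Phi E (s 1) 0 :=
      congrArg (fun f : Cp X => f.1 (s 1)) (e1.trans e2.symm)
    have e6' : Phi E (s 1) 0 = 1 := by simp [Phi, hs]
    rw [e6', mul_one, mul_one] at e3
    have e4 : (a : ℝ) < b := by exact_mod_cast h6
    have e5 := h8.2
    have e6 := h10.1
    push_cast at e5 e6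
    linarith

end

/-- Let `X` be a normal space that contains a closed copy of the Baire space `ω^ω`.  Then `C_p(X)` is
not weakly Whyburn.  More generally this holds for every space `X` into which `ω^ω` is mapped by a
continuous map `s` such that the coordinate functions extend: there is a continuous `E : X → ℝ^ω`
with `E (s a) = a` for all `a ∈ ω^ω` (so that `s` embeds `ω^ω`). In particular it holds for `ℝ^ω` and
for the Baire space itself. -/
theorem result :
    (∀ (X : Type*) [TopologicalSpace X] [NormalSpace X] (s : (ℕ → ℕ) → X),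
      Topology.IsClosedEmbedding s → ¬ WeaklyWhyburn (Cp X)) ∧
    (∀ (X : Type*) [TopologicalSpace X] (s : (ℕ → ℕ) → X) (E : X → ℕ → ℝ),
      Continuous s → Continuous E → (∀ a k, E (s a) k = a k) → ¬ WeaklyWhyburn (Cp X)) ∧
    ¬ WeaklyWhyburn (Cp (ℕ → ℝ)) ∧ ¬ WeaklyWhyburn (Cp (ℕ → ℕ)) := by
  refine ⟨?_, ?_, ?_, ?_⟩
  · intro X _ _ s hs
    let f : C(ℕ → ℕ, ℕ → ℝ) := ⟨fun a k => a k, continuous_pi fun k =>
      continuous_of_discreteTopology.comp (continuous_apply k)⟩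
    obtain ⟨E, hE⟩ := f.exists_extension hs
    refine main E.continuous hs.continuous fun a k => ?_
    have := DFunLike.congr_fun hE a
    exact congrFun this k
  · intro X _ s E hs hE h
    exact main hE hs h
  · exact main (E := id) continuous_id (s := fun a k => (a k : ℝ))
      (continuous_pi fun k => continuous_of_discreteTopology.comp (continuous_apply k))
      (fun a k => rfl)
  · exact main (E := fun a k => (a k : ℝ))
      (continuous_pi fun k => continuous_of_discreteTopology.comp (continuous_apply k))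
      (s := id) continuous_id (fun a k => rfl)

end Pool.Agent.Results.MP_b4086f_gt.BaireSpace
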